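import Pool.Agent.X244.DP.D

/-!
# The modified separable De Palma–Trevisan cost can exceed the general one

On `ℂ⁴ = ℂ² ⊕ ℂ²` take the two observables `H₁ = (2Z) ⊕ X` and `H₂ = X ⊕ (2Z)` (`Z`, `X` the Pauli
matrices) and the states `ρ = ½ (1 ⊕ 0)`, `σ = ½ (0 ⊕ 1)`.  Then `H₁² + H₂² = 5`.

* For pure states `W(Ψ, Φ) = 5 - ∑ ⟨H_n⟩_Ψ ⟨H_n⟩_Φ`.  If `Ψ` lies in the first and `Φ` in the second
  summand, the sum is `2 (z x' + x z') ≤ 2` by Cauchy–Schwarz in the Bloch ball, so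
  `W_sep(ρ, σ) ≥ 3`; the decomposition along the standard basis gives `W_sep(ρ, ρ) ≤ 1` and
  `W_sep(σ, σ) ≤ 1`.  Hence `W̃_sep(ρ, σ) ≥ 2`.
* The pure state `½ (e₀⊗e₂ + e₀⊗e₃ + e₁⊗e₂ - e₁⊗e₃)` is a coupling of `ρ` and `σ` with cost
  `5 - 4 = 1`, so `W̃(ρ, σ) ≤ W(ρ, σ) ≤ 1`.
-/

set_option autoImplicit false

open Matrix
open Pool.Agent.X244.DP

namespace Pool.Agent.Results.MP_9a8b60_mp.SeparableExceedsGeneral

/-- There are two real symmetric observables on `ℂ⁴` and two (real) states with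
`W̃(ρ, σ) ≤ 1 < 2 ≤ W̃_sep(ρ, σ)`. -/
theorem result : ∃ (H : Fin 2 → Matrix (Fin 4) (Fin 4) ℂ) (ρ σ : Matrix (Fin 4) (Fin 4) ℂ),
    (∀ n, (H n).IsHermitian) ∧ (∀ n, (H n)ᵀ = H n) ∧ IsState ρ ∧ ρᵀ = ρ ∧ IsState σ ∧ σᵀ = σ ∧
      Wt H ρ σ ≤ 1 ∧ 2 ≤ WtSep H ρ σ := by
  refine ⟨H, ρ₀, σ₀, H_herm, ?_, ρ_state, ?_, σ_state, ?_, Wt_le_one, two_le_WtSep⟩
  · intro n
    fin_cases n
    · ext i j
      fin_cases i <;> fin_cases j <;> simp [H, h1]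
    · ext i j
      fin_cases i <;> fin_cases j <;> simp [H, h2]
  · ext i j
    fin_cases i <;> fin_cases j <;> simp [ρ₀]
  · ext i j
    fin_cases i <;> fin_cases j <;> simp [σ₀]

end Pool.Agent.Results.MP_9a8b60_mp.SeparableExceedsGeneral
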